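import Mathlib
import Pool.Agent.H686R3.LatticeFO

/-!
# Sublattices of subspace lattices over division rings are not finitely axiomatizable

For a prime `p` and a field `E` of characteristic zero (a nonprincipal ultraproduct of the prime
fields) the lattice `L_p = Sub((ℤ/p)³) × Sub(E³)` embeds in no subspace lattice over any division
ring, since each factor contains a von Neumann frame which forces the characteristic.  A
nonprincipal ultraproduct of the `L_p` is isomorphic to a sublattice of the subspace lattice of one
vector space over a field of characteristic zero.  So no finite set of first-order sentences has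
the class as its class of models.
-/

namespace Pool.Agent.Results.MP_d4b74c_al.NotFinitelyAxiomatizable

open FirstOrder Filter Pool.Agent.H686R3

/-- `L` belongs to the class `K`: there are a division ring `D` (commutative or not), a `D`-vector
space `V` of any dimension and an injective map from `L` to the lattice of all `D`-subspaces of `V`
which preserves binary joins and meets. -/
def InClass (L : Type) [Lattice L] : Prop :=
  ∃ (D : Type) (_ : DivisionRing D) (V : Type) (_ : AddCommGroup V) (_ : Module D V)
    (f : LatticeHom L (Submodule D V)), Function.Injective f

/-- No finite set of first-order sentences in the language of lattices has the class `K` of all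
lattices isomorphic to a sublattice of a subspace lattice of a vector space over a division ring as
its class of models (among lattices). -/
theorem result :
    ¬ ∃ Sg : Set latLang.Sentence, Sg.Finite ∧
      ∀ (L : Type) [Lattice L], InClass L ↔ ∀ φ ∈ Sg, L ⊨ φ := by
  rintro ⟨Sg, hfin, hSg⟩
  have h : ∀ φ ∈ Sg, ∀ᶠ i in (UU : Filter ℕ), LL i ⊨ φ := by
    intro φ hφ
    refine core φ fun M _ hM => (hSg M).mp ?_ φ hφ
    obtain ⟨F, hF, V, hV1, hV2, f, hf⟩ := hM
    exact ⟨F, inferInstance, V, hV1, hV2, f, hf⟩
  have h2 : ∀ᶠ i in (UU : Filter ℕ), ∀ φ ∈ Sg, LL i ⊨ φ :=
    (Filter.eventually_all_finite hfin).mpr h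
  obtain ⟨i, hi⟩ := h2.exists
  obtain ⟨D, hD, V, hV1, hV2, f, hf⟩ := (hSg (LL i)).mpr hi
  exact LL_not_embeds i f hf

end Pool.Agent.Results.MP_d4b74c_al.NotFinitelyAxiomatizable
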